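import Pool.Agent.H20.MMS

namespace Pool.Agent.Results.MP_b5758b_co.Seven

open Finset H20.MMS

theorem result : f 2 ≤ 7 ∧
    (∃ x : ℕ → ℝ, InF 7 x ∧ s 2 7 x = (7 - 1).choose (2 - 1) ∧ x 1 + x 7 < 0) ∧
    ¬ (∀ k n : ℕ, 2 ≤ k → k ≤ n → f k ≤ n → ∀ x : ℕ → ℝ, InF n x →
      s k n x = (n - 1).choose (k - 1) → 0 ≤ x 1 + ∑ i ∈ Icc (n - k + 2) n, x i) := by
  refine ⟨f_two, ⟨_, y_mem, s_y, by norm_num [y]⟩, fun h => ?_⟩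
  have := h 2 7 le_rfl (by norm_num) f_two _ y_mem s_y
  norm_num [y] at this

end Pool.Agent.Results.MP_b5758b_co.Seven
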